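import Mathlib
import Pool.Agent.TH437.RTK.Fin1

set_option autoImplicit false
open Filter

/-!
Ramsey-Turan density of `K_5` just below `Q(3, n/2)`.

`Q t m` (from `Pool.Agent.TH437.RTK.Q`) is the minimum of the independence number over all graphs
on `m` vertices without `K_t`; `RT n t f` (from `Pool.Agent.TH437.RTK.Defs`) is the largest number
of edges of a graph on `n` vertices without `K_t` and with independence number less than `f`.

Main tool: if `G` has no `K_5`, `α(G) ≤ Q(3, n)` and `e(G) ≥ (1/4 - δ) n^2`, then `G` contains an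
induced triangle-free subgraph on at least `(1/2 - γ) n` vertices (`stab_Q`).
-/

namespace Pool.Agent.Results.MP_e0e768_co.BelowQuarter

open Pool.Agent.TH437.RTK

/-- The upper Ramsey-Turan density of `K_t` for the bound `f` on the independence number. -/
noncomputable def upperDensity (t : ℕ) (f : ℕ → ℝ) : ℝ :=
  limsup (fun n : ℕ => (RT n t (f n) : ℝ) / (n : ℝ) ^ 2) atTop

/-- The lower Ramsey-Turan density of `K_t` for the bound `f` on the independence number. -/
noncomputable def lowerDensity (t : ℕ) (f : ℕ → ℝ) : ℝ :=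
  liminf (fun n : ℕ => (RT n t (f n) : ℝ) / (n : ℝ) ^ 2) atTop

theorem result :
    (∀ c : ℝ, 0 < c → c < 1 → lowerDensity 5 (fun n => c * (Q 3 (n / 2) : ℝ)) < 1 / 4) ∧
    (∀ c : ℝ, 0 < c → c ≤ 1 / 2 → upperDensity 5 (fun n => c * (Q 3 (n / 2) : ℝ)) < 1 / 4) :=
  ⟨fun c h0 h1 => lower_all c h0 h1, fun c h0 h1 => upper_half c h0 h1⟩

end Pool.Agent.Results.MP_e0e768_co.BelowQuarter
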